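import Pool.Agent.H654R3.Final

set_option autoImplicit false

/-!
The weighted Fourier lower bound for all zeta-invariants of real smooth functions on the circle.

Idea of the proof.  For a trigonometric polynomial `a` one has
`Z_k(a) = Tr A^{2k} - Tr (HA)^{2k}` where `A` is a truncation of `|D|^{1/2} a |D|^{1/2}` and
`H = sgn D`.  A chain of reflections (Cauchy-Schwarz) bounds this from below by a constant times
`Tr |A² - H A² H|^k`, and the entries of `A²` between positive and negative frequencies have second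
differences `2 â_p â_{N-p}`, which gives back the coefficients of `a`.
-/

namespace Pool.Agent.Results.MP_2eaf66_an.FourierLowerBound

/-- The Fourier coefficient `â_n = (1/2π) ∫_0^{2π} a(x) e^{-inx} dx`. -/
noncomputable def fourierCoefficient (a : ℝ → ℝ) (n : ℤ) : ℂ :=
  (1 / (2 * (Real.pi : ℂ))) * ∫ x in (0 : ℝ)..(2 * Real.pi),
    (a x : ℂ) * Complex.exp (-(Complex.I * (n : ℂ) * (x : ℂ)))

/-- `f_m(n) = ∏_{i=0}^{2k-1} (n + s_i)` with `s_0 = 0` and `s_i = m_1 + ... + m_i`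
(the entries of `m` are indexed from `0` to `2k - 1` here, so `s_i` is the sum of the entries with
index less than `i`). -/
def shiftProduct {k : ℕ} (m : Fin (2 * k) → ℤ) (n : ℤ) : ℤ :=
  ∏ i : Fin (2 * k), (n + ∑ l ∈ Finset.Iio i, m l)

/-- `N_m = ∑_{n ∈ ℤ} (|f_m(n)| - f_m(n))`, a sum with finitely many nonzero terms. -/
noncomputable def multiplier {k : ℕ} (m : Fin (2 * k) → ℤ) : ℤ :=
  ∑ᶠ n : ℤ, (|shiftProduct m n| - shiftProduct m n)

/-- The general term `N_m ∏ â_{m_i}` of the series defining `Z_k(a)`. -/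
noncomputable def zetaTerm (k : ℕ) (a : ℝ → ℝ)
    (m : {m : Fin (2 * k) → ℤ // ∑ i, m i = 0}) : ℂ :=
  ((multiplier m.1 : ℤ) : ℂ) * ∏ i, fourierCoefficient a (m.1 i)

/-- The `k`-th zeta-invariant `Z_k(a)`. -/
noncomputable def zetaInvariant (k : ℕ) (a : ℝ → ℝ) : ℂ :=
  ∑' m : {m : Fin (2 * k) → ℤ // ∑ i, m i = 0}, zetaTerm k a m

/-- For every `k ≥ 1` there is `c_k > 0`, depending on `k` alone, such that for every real smooth
`2π`-periodic `a` the series defining `Z_k(a)` converges absolutely to a real number, the series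
`∑_{n ≥ 2} n^{2k+1} |â_n|^{2k}` converges, and `c_k ∑_{n ≥ 2} n^{2k+1} |â_n|^{2k} ≤ Z_k(a)`. -/
theorem result :
    ∀ k : ℕ, 1 ≤ k → ∃ c : ℝ, 0 < c ∧ ∀ a : ℝ → ℝ,
      ContDiff ℝ (⊤ : ℕ∞) a → Function.Periodic a (2 * Real.pi) →
        Summable (fun m => ‖zetaTerm k a m‖) ∧ (zetaInvariant k a).im = 0 ∧
        Summable (fun n : {n : ℕ // 2 ≤ n} =>
          ((n : ℕ) : ℝ) ^ (2 * k + 1) * ‖fourierCoefficient a ((n : ℕ) : ℤ)‖ ^ (2 * k)) ∧
        c * ∑' n : {n : ℕ // 2 ≤ n},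
          ((n : ℕ) : ℝ) ^ (2 * k + 1) * ‖fourierCoefficient a ((n : ℕ) : ℤ)‖ ^ (2 * k) ≤
          (zetaInvariant k a).re := by
  intro k hk
  obtain ⟨c, hc, hall⟩ := Pool.Agent.H654R3.final_bound k hk
  refine ⟨c, hc, ?_⟩
  intro a ha hp
  obtain ⟨him, hbound⟩ := hall a ha hp
  have hsumm := Pool.Agent.H654R3.summable_zterm (m := 2 * k) ⟨k, by ring⟩ a ha hp
  set Z : ℝ := (zetaInvariant k a).re with hZ
  have hfin : ∀ u : Finset {n : ℕ // 2 ≤ n},
      c * ∑ n ∈ u, ((n : ℕ) : ℝ) ^ (2 * k + 1) *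
        ‖fourierCoefficient a ((n : ℕ) : ℤ)‖ ^ (2 * k) ≤ Z := by
    intro u
    obtain ⟨M, hM⟩ : ∃ M : ℕ, ∀ n ∈ u, (n : ℕ) ≤ M :=
      ⟨u.sup (fun n => (n : ℕ)), fun n hn => Finset.le_sup (f := fun n : {n : ℕ // 2 ≤ n} =>
        (n : ℕ)) hn⟩
    refine le_trans ?_ (hbound M)
    apply mul_le_mul_of_nonneg_left _ hc.le
    have hmap : ∑ n ∈ u, ((n : ℕ) : ℝ) ^ (2 * k + 1) *
        ‖fourierCoefficient a ((n : ℕ) : ℤ)‖ ^ (2 * k) =
        ∑ n ∈ u.map (Function.Embedding.subtype _), (n : ℝ) ^ (2 * k + 1) *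
        ‖fourierCoefficient a (n : ℤ)‖ ^ (2 * k) := by
      rw [Finset.sum_map]; rfl
    rw [hmap]
    refine Finset.sum_le_sum_of_subset_of_nonneg ?_ (fun _ _ _ => by positivity)
    intro n hn
    rw [Finset.mem_map] at hn
    obtain ⟨x, hx, rfl⟩ := hn
    rw [Finset.mem_Icc]
    exact ⟨x.2, hM x hx⟩
  have hfin' : ∀ u : Finset {n : ℕ // 2 ≤ n},
      ∑ n ∈ u, ((n : ℕ) : ℝ) ^ (2 * k + 1) *
        ‖fourierCoefficient a ((n : ℕ) : ℤ)‖ ^ (2 * k) ≤ Z / c := by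
    intro u
    rw [le_div_iff₀ hc, mul_comm]
    exact hfin u
  have hs : Summable (fun n : {n : ℕ // 2 ≤ n} =>
      ((n : ℕ) : ℝ) ^ (2 * k + 1) * ‖fourierCoefficient a ((n : ℕ) : ℤ)‖ ^ (2 * k)) :=
    summable_of_sum_le (fun n => by positivity) hfin'
  refine ⟨hsumm, him, hs, ?_⟩
  have h1 := hs.tsum_le_of_sum_le hfin'
  rw [le_div_iff₀ hc, mul_comm] at h1
  exact h1

end Pool.Agent.Results.MP_2eaf66_an.FourierLowerBound
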